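import Pool.Agent.Helper99.SI.StA

set_option autoImplicit false

/-! Project SI (helper99), MP_181f94_al: module A3 (independence of the words), by helper2. -/

namespace Pool.Agent.Helper2.SI

open Pool.Agent.Helper99.SI

theorem w_nil {n : ℕ} {L : Type} [Ring L] [Algebra ℂ L] [StarRing L] (D : Sys n L) :
    D.w [] = 1 := by
  simp [Sys.w, wd]

theorem gp_w (h2 : StA2) {n : ℕ} {L : Type} [Ring L] [Algebra ℂ L] [StarRing L] [StarModule ℂ L]
    (D : Sys n L) (l : ℤ) (μ : W n) :
    D.g.p l (D.w μ) = if l = (μ.length : ℤ) then D.w μ else 0 := by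
  have := h2 n L D l μ []
  rw [w_nil, star_one, mul_one] at this
  simpa using this

theorem star_w_mul (h1 : StA1) {n : ℕ} {L : Type} [Ring L] [Algebra ℂ L] [StarRing L]
    [StarModule ℂ L] (D : Sys n L) (μ ν : W n) (h : μ.length = ν.length) :
    star (D.w μ) * D.w ν = if μ = ν then 1 else 0 := by
  split_ifs with hμν
  · subst hμν
    have := (h1 n L D).2.1 μ []
    rwa [List.append_nil, w_nil] at this
  · refine (h1 n L D).2.2.2.1 μ ν (fun hp => hμν (hp.eq_of_length h)) fun hp => ?_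
    exact hμν (hp.eq_of_length h.symm).symm

theorem w_indep (h1 : StA1) (h2 : StA2) {n : ℕ} {L : Type} [Ring L] [Algebra ℂ L] [StarRing L]
    [StarModule ℂ L] [Nontrivial L] (D : Sys n L) : LinearIndependent ℂ D.w := by
  rw [linearIndependent_iff']
  intro s a ha ν hν
  have e1 : ∑ μ ∈ s, a μ • (if (ν.length : ℤ) = (μ.length : ℤ) then D.w μ else 0) = 0 := by
    have := congrArg (D.g.p (ν.length : ℤ)) ha
    rw [map_sum, map_zero] at this
    refine Eq.trans (Finset.sum_congr rfl fun μ _ => ?_) this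
    rw [map_smul, gp_w h2]
  have e2 := congrArg (fun y => star (D.w ν) * y) e1
  simp only [Finset.mul_sum, mul_zero] at e2
  have e3 : ∀ μ ∈ s, star (D.w ν) * (a μ • (if (ν.length : ℤ) = (μ.length : ℤ) then D.w μ else 0)) =
      if ν = μ then a μ • (1 : L) else 0 := by
    intro μ _
    by_cases hl : (ν.length : ℤ) = (μ.length : ℤ)
    · rw [if_pos hl, mul_smul_comm, star_w_mul h1 D ν μ (by exact_mod_cast hl)]
      split_ifs
      · rfl
      · rw [smul_zero]
    · rw [if_neg hl, smul_zero, mul_zero, if_neg]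
      rintro rfl
      exact hl rfl
  rw [Finset.sum_congr rfl e3, Finset.sum_ite_eq, if_pos hν] at e2
  exact (smul_eq_zero.1 e2).resolve_right one_ne_zero

theorem cf_emb_of (h1 : StA1) (h2 : StA2) {n : ℕ} {L : Type} [Ring L] [Algebra ℂ L] [StarRing L]
    [StarModule ℂ L] [Nontrivial L] (D : Sys n L) (p : W n →₀ ℂ) : D.cf (D.emb p) = p := by
  have hinj : Function.Injective D.emb := w_indep h1 h2 D
  have hex : ∃ f : L →ₗ[ℂ] (W n →₀ ℂ), f ∘ₗ D.emb = LinearMap.id :=
    LinearMap.exists_leftInverse_of_injective D.emb (LinearMap.ker_eq_bot.2 hinj)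
  have h3 : D.cf ∘ₗ D.emb = LinearMap.id := by
    unfold Sys.cf
    rw [dif_pos hex]
    exact hex.choose_spec
  exact LinearMap.congr_fun h3 p

theorem range_emb {n : ℕ} {L : Type} [Ring L] [Algebra ℂ L] [StarRing L] (D : Sys n L) :
    LinearMap.range D.emb = D.S := Finsupp.range_linearCombination ℂ

theorem hA3 (h1 : StA1) (h2 : StA2) : StA3 := by
  intro n L _ _ _ _ _ D
  refine ⟨w_indep h1 h2 D, cf_emb_of h1 h2 D, fun y hy => ?_, fun p => ?_⟩
  · rw [← range_emb] at hy
    obtain ⟨p, rfl⟩ := hy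
    rw [cf_emb_of h1 h2 D]
  · rw [← range_emb]
    exact ⟨p, rfl⟩

end Pool.Agent.Helper2.SI
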