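import Pool.Agent.Helper99.SI.StA

set_option autoImplicit false

/-! Project SI (helper99), MP_181f94_al: module A4 (levels), by helper2. -/

namespace Pool.Agent.Helper2.SI

open Pool.Agent.Helper99.SI

theorem cf_w (h2 : StA3) {n : ℕ} {L : Type} [Ring L] [Algebra ℂ L] [StarRing L] [StarModule ℂ L]
    [Nontrivial L] (D : Sys n L) (μ : W n) : D.cf (D.w μ) = Finsupp.single μ 1 := by
  have := (h2 n L D).2.1 (Finsupp.single μ 1)
  rwa [Sys.emb, Finsupp.linearCombination_single, one_smul] at this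

theorem w_mem_S {n : ℕ} {L : Type} [Ring L] [Algebra ℂ L] [StarRing L] (D : Sys n L) (μ : W n) :
    D.w μ ∈ D.S := Submodule.subset_span ⟨μ, rfl⟩

theorem hA4 (h1 : StA1) (h2 : StA3) : StA4 := by
  intro n L _ _ _ _ _ D y
  refine Submodule.span_induction (p := fun y _ => ∃ l c : ℕ, ∀ κ : W n, l ≤ κ.length →
      y * D.w κ ∈ D.S ∧
      ∀ μ : W n, D.cf (y * D.w κ) μ ≠ 0 → κ.length ≤ μ.length + c ∧ μ.length ≤ κ.length + c)
    ?_ ?_ ?_ ?_ (D.span y)
  · rintro _ ⟨⟨α, β⟩, rfl⟩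
    refine ⟨β.length, α.length + β.length, fun κ hκ => ?_⟩
    by_cases hβ : β <+: κ
    · obtain ⟨κ', rfl⟩ := hβ
      have e : wd D.x α * star (wd D.x β) * D.w (β ++ κ') = D.w (α ++ κ') := by
        have e1 := (h1 n L D).2.1 β κ'
        have e2 := (h1 n L D).1 α κ'
        rw [mul_assoc]
        change D.w α * (star (D.w β) * D.w (β ++ κ')) = _
        rw [e1, e2]
      simp only [e]
      refine ⟨w_mem_S D _, fun μ hμ => ?_⟩
      rw [cf_w h2] at hμ
      have hμ' : μ = α ++ κ' := by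
        by_contra hne
        exact hμ (Finsupp.single_eq_of_ne hne)
      subst hμ'
      simp only [List.length_append]
      omega
    · have hκβ : ¬ κ <+: β := by
        intro h
        have h3 := h.length_le
        have h4 := h.eq_of_length (le_antisymm h3 hκ)
        exact hβ ⟨[], by rw [List.append_nil, h4]⟩
      have e : wd D.x α * star (wd D.x β) * D.w κ = 0 := by
        rw [mul_assoc]
        change D.w α * (star (D.w β) * D.w κ) = _
        rw [(h1 n L D).2.2.2.1 β κ hβ hκβ, mul_zero]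
      simp only [e]
      refine ⟨D.S.zero_mem, fun μ hμ => ?_⟩
      rw [map_zero] at hμ
      exact absurd rfl hμ
  · refine ⟨0, 0, fun κ _ => ?_⟩
    simp only [zero_mul]
    refine ⟨D.S.zero_mem, fun μ hμ => ?_⟩
    rw [map_zero] at hμ
    exact absurd rfl hμ
  · rintro y z _ _ ⟨l1, c1, hy⟩ ⟨l2, c2, hz⟩
    refine ⟨max l1 l2, max c1 c2, fun κ hκ => ?_⟩
    obtain ⟨a1, a2⟩ := hy κ (le_trans (le_max_left _ _) hκ)
    obtain ⟨b1, b2⟩ := hz κ (le_trans (le_max_right _ _) hκ)
    rw [add_mul]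
    refine ⟨D.S.add_mem a1 b1, fun μ hμ => ?_⟩
    rw [map_add, Finsupp.add_apply] at hμ
    have hm1 := le_max_left c1 c2
    have hm2 := le_max_right c1 c2
    by_cases h0 : D.cf (y * D.w κ) μ = 0
    · have h3 : D.cf (z * D.w κ) μ ≠ 0 := fun h3 => hμ (by rw [h0, h3, add_zero])
      have := b2 μ h3
      omega
    · have := a2 μ h0
      omega
  · rintro r y _ ⟨l1, c1, hy⟩
    refine ⟨l1, c1, fun κ hκ => ?_⟩
    obtain ⟨a1, a2⟩ := hy κ hκ
    rw [smul_mul_assoc]
    refine ⟨D.S.smul_mem r a1, fun μ hμ => a2 μ fun h0 => hμ ?_⟩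
    rw [map_smul, Finsupp.smul_apply, h0, smul_zero]

end Pool.Agent.Helper2.SI
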