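import Pool.Agent.Helper84.SI.M_M13

set_option autoImplicit false

/-!
# Project SI, module M12: nilpotent kernel and cokernel
-/

namespace Pool.Agent.Helper2.SI

open Pool.Agent.Helper99.SI LaurentPolynomial Pool.Agent.Helper84.SI

section

variable {n : ℕ} {L : Type} [Ring L] [Algebra ℂ L] [StarRing L]

theorem core12 (m : MData n L) (D : Sys n L) (t : ℝ) {ι Y : Type}
    [AddCommGroup Y] [Module AA Y]
    (v : Y → (Idx n m.r →₀ ℂ)) (e : ι → Y) (em : ι → Idx n m.r) (PHs : Y → Y) (ev : Y → L)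
    (hind : ∀ P : Y → Prop, P 0 → (∀ y z, P y → P z → P (y + z)) →
      (∀ (c : ℂ) (j : ℤ) (i : ι), P ((C c * T j : AA) • e i)) → ∀ y, P y)
    (hv0 : v 0 = 0) (hvadd : ∀ y z, v (y + z) = v y + v z)
    (hvsm : ∀ (c : ℂ) (j : ℤ) (y : Y), v ((C c * T j : AA) • y) = (c * (t : ℂ) ^ j) • v y)
    (hve : ∀ i, v (e i) = Finsupp.single (em i) 1)
    (hP0 : PHs 0 = 0) (hPadd : ∀ y z, PHs (y + z) = PHs y + PHs z)
    (hPsm : ∀ (c : ℂ) (j : ℤ) (y : Y),
      PHs ((C c * T j : AA) • y) = (C c * T j : AA) • PHs y)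
    (hPe : ∀ i, v (PHs (e i)) = m.Fc t (em i))
    (hE0 : ev 0 = 0) (hEadd : ∀ y z, ev (y + z) = ev y + ev z)
    (hEsm : ∀ (c : ℂ) (j : ℤ) (y : Y), ev ((C c * T j : AA) • y) = (c * (t : ℂ) ^ j) • ev y)
    (hEe : ∀ i, ev (e i) = m.piT D t (em i))
    (hdum : ∀ i, (¬ ∃ i', em i' = i) → m.Fc t i = 0 ∧ m.piT D t i = 0) :
    (∀ (k : ℕ) (y : Y), v (PHs^[k] y) = (m.Fl t ^ k) (v y)) ∧
    (∀ y, m.piV D t (v y) = ev y) ∧
    (∀ z, ∃ y, m.Fl t z = m.Fl t (v y) ∧ m.piV D t z = m.piV D t (v y)) := by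
  have hFl1 : ∀ i, m.Fl t (Finsupp.single i 1) = m.Fc t i := by
    intro i
    unfold MData.Fl
    rw [Finsupp.linearCombination_single, one_smul]
  have hpi1 : ∀ i, m.piV D t (Finsupp.single i 1) = m.piT D t i := by
    intro i
    unfold MData.piV
    rw [Finsupp.linearCombination_single, one_smul]
  have hsin : ∀ (i : Idx n m.r) (c : ℂ), Finsupp.single i c = c • Finsupp.single i (1 : ℂ) := by
    intro i c
    rw [Finsupp.smul_single, smul_eq_mul, mul_one]
  have hvP : ∀ y, v (PHs y) = m.Fl t (v y) := by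
    refine hind _ ?_ ?_ ?_
    · rw [hP0, hv0, map_zero]
    · intro y z hy hz
      rw [hPadd, hvadd, hvadd, hy, hz, map_add]
    · intro c j i
      rw [hPsm, hvsm, hvsm, hPe, hve, map_smul, hFl1]
  refine ⟨?_, ?_, ?_⟩
  · intro k
    induction k with
    | zero => intro y; simp
    | succ k ih =>
      intro y
      rw [Function.iterate_succ_apply, ih, hvP, pow_succ, Module.End.mul_apply]
  · refine hind _ ?_ ?_ ?_
    · rw [hv0, map_zero, hE0]
    · intro y z hy hz
      rw [hvadd, map_add, hy, hz, hEadd]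
    · intro c j i
      rw [hvsm, map_smul, hve, hpi1, hEsm, hEe]
  · intro z
    induction z using Finsupp.induction_linear with
    | zero => exact ⟨0, by rw [hv0], by rw [hv0]⟩
    | add f g hf hg =>
      obtain ⟨y1, a1, a2⟩ := hf
      obtain ⟨y2, b1, b2⟩ := hg
      refine ⟨y1 + y2, ?_, ?_⟩
      · rw [hvadd, map_add, map_add, a1, b1]
      · rw [hvadd, map_add, map_add, a2, b2]
    | single i c =>
      by_cases hi : ∃ i', em i' = i
      · obtain ⟨i', rfl⟩ := hi
        have h1 : v ((C c * T 0 : AA) • e i') = Finsupp.single (em i') c := by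
          rw [hvsm, hve, zpow_zero, mul_one, ← hsin]
        exact ⟨_, by rw [h1], by rw [h1]⟩
      · obtain ⟨h1, h2⟩ := hdum i hi
        refine ⟨0, ?_, ?_⟩
        · rw [hv0, map_zero, hsin, map_smul, hFl1, h1, smul_zero]
        · rw [hv0, map_zero, hsin, map_smul, hpi1, h2, smul_zero]

end

theorem hM12 (h1 : StM0) (h2 : StM7) (h3 : StM8) (h4 : StM11) : StM12 := by
  classical
  intro n L _ _ _ _ _ D X0 M M2 r B Z hMod hF hbb
  have hmod := hMod
  obtain ⟨_, hX0, hone, _, _, _, _⟩ := hmod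
  obtain ⟨_, _, _, _, _, _, hevadd, hevsm, hev, hevC, _, hdiv⟩ := h1 L D.b
  obtain ⟨hPY, _, _, _, _, _, _, _, _, hevP, _, _⟩ := h2 n L D X0 hX0
  have hM8 := h3 n L D X0 hX0 hone
  have hmemb : ∀ i, D.fam M B.b i ∈ D.YY X0 := by
    intro i
    rw [← B.hB i]
    exact (B.B i).2
  have hev0 : ∀ t : ℂ, evl t (0 : LL L) = 0 := by
    intro t
    have h := hevadd t 0 0
    rw [add_zero] at h
    exact left_eq_add.1 h
  have hFch : ∀ (j : ℤ) (i : Id' n M r), (B.mk' M2 Z).F j (emI i) =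
      B.co j (D.PhiL (D.fam M B.b i)) := by
    intro j i
    have hex : ∃ i' : Id' n M r, emI i' = (emI i : Idx n r) := ⟨i, rfl⟩
    refine (dif_pos hex).trans ?_
    have h := emI_inj hex.choose_spec
    exact congrArg (fun x => B.co j (D.PhiL (D.fam M B.b x))) h
  have hFdum : ∀ (j : ℤ) (i : Idx n r), (¬ ∃ i' : Id' n M r, emI i' = i) →
      (B.mk' M2 Z).F j i = 0 := by
    intro j i hi
    exact dif_neg hi
  let PH : D.YY X0 → D.YY X0 := fun y => ⟨D.PhiL y, hPY y y.2⟩
  have hPHk : ∀ (k : ℕ) (y : D.YY X0), ((PH^[k] y : D.YY X0) : LL L) = (D.PhiL ^ k) (y : LL L) := by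
    intro k
    induction k with
    | zero => intro y; simp
    | succ k ih =>
      intro y
      rw [Function.iterate_succ_apply, ih, pow_succ, Module.End.mul_apply]
  have hcore : ∀ t : ℝ, 0 < t → _ := fun t ht =>
    have htC : (t : ℂ) ≠ 0 := by exact_mod_cast ht.ne'
    core12 (B.mk' M2 Z) D t (vv B (t : ℂ)) B.B emI PH (fun y => evl (t : ℂ) (y : LL L))
      (fun P h0 hadd hb y => YY_ind B h0 hadd hb y) (vv_zero B _) (vv_add B _) (vv_smul B _ htC)
      (vv_basis B _) (Subtype.ext (map_zero D.PhiL)) (fun y z => Subtype.ext (map_add D.PhiL _ _))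
      (fun c j y => Subtype.ext (map_smul D.PhiL _ _))
      (by
        intro i
        have h : D.PhiL (B.B i : LL L) = D.PhiL (D.fam M B.b i) := by
          rw [B.hB]
        refine (vv_eq_sum B (t : ℂ) _ _ Z ?_).trans ?_
        · intro j hj
          rw [h, ← hFch]
          exact hF j hj _
        · rw [h]
          refine Finset.sum_congr rfl fun j _ => ?_
          exact congrArg _ (hFch j i).symm)
      (hev0 t) (fun y z => hevadd t _ _)
      (fun c j y => (hevsm t _ _ htC).trans (by rw [evA_CT]))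
      (by
        intro i
        show evl (t : ℂ) (B.B i : LL L) = _
        rw [B.hB]
        rcases i with (ν | ν) | a
        · change evl (t : ℂ) (D.b.bt (D.w ν.1)) =
            if M ≤ ν.1.length then D.b.ev (t : ℂ) (D.w ν.1) else 0
          rw [if_pos ν.2, hev]
        · change evl (t : ℂ) (C (star (D.w ν.1))) =
            if M ≤ ν.1.length then star (D.w ν.1) else 0
          rw [if_pos ν.2, hevC]
        · show evl (t : ℂ) (B.b a) = ∑ j ∈ Z, (t : ℂ) ^ j • (B.b a).coeff j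
          unfold evl
          rw [Finsupp.sum_of_support_subset (s := Z)]
          · intro j hj
            by_contra hjZ
            rw [Finsupp.mem_support_iff] at hj
            exact hj (hbb j hjZ a)
          · intro j _
            exact smul_zero _)
      (by
        intro i hi
        refine ⟨Finset.sum_eq_zero fun j _ => ?_, ?_⟩
        · have h := hFdum j i hi
          exact (congrArg _ h).trans (smul_zero _)
        · rcases i with (ν | ν) | a
          · change (if M ≤ ν.length then D.b.ev (t : ℂ) (D.w ν) else 0) = 0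
            rw [if_neg]
            intro hν
            exact hi ⟨Sum.inl (Sum.inl ⟨ν, hν⟩), rfl⟩
          · change (if M ≤ ν.length then star (D.w ν) else 0) = 0
            rw [if_neg]
            intro hν
            exact hi ⟨Sum.inl (Sum.inr ⟨ν, hν⟩), rfl⟩
          · exact absurd ⟨Sum.inr a, rfl⟩ hi)
  refine ⟨?_, ?_⟩
  · intro t ht z hz
    have htC : (t : ℂ) ≠ 0 := by exact_mod_cast ht.ne'
    obtain ⟨ha, hb, hc⟩ := hcore t ht
    obtain ⟨y, hy1, hy2⟩ := hc z
    have hy3 : evl (t : ℂ) (y : LL L) = 0 := by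
      rw [← hb y, ← hy2, hz]
    obtain ⟨w, hw⟩ := hdiv t y htC hy3
    obtain ⟨k, hk⟩ := hM8 w
    refine ⟨k + 1, ?_⟩
    have e1 : ((B.mk' M2 Z).Fl t ^ (k + 1)) z = ((B.mk' M2 Z).Fl t ^ (k + 1)) (vv B (t : ℂ) y) := by
      rw [pow_succ, Module.End.mul_apply, Module.End.mul_apply, hy1]
    rw [e1, ← ha (k + 1) y]
    have hmem : (D.PhiL ^ (k + 1)) w ∈ D.YY X0 := hk (k + 1) (by omega)
    have e2 : PH^[k + 1] y = (C 1 * T 1 : AA) • (⟨_, hmem⟩ : D.YY X0) +
        (C (-(t : ℂ)) * T 0 : AA) • (⟨_, hmem⟩ : D.YY X0) := by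
      apply Subtype.ext
      rw [hPHk, hw, map_smul, sub_smul]
      show _ = (C 1 * T 1 : AA) • (D.PhiL ^ (k + 1)) w + (C (-(t : ℂ)) * T 0 : AA) • (D.PhiL ^ (k + 1)) w
      rw [map_one, one_mul, T_zero, mul_one, map_neg, neg_smul, sub_eq_add_neg]
    have e3 : (1 * (t : ℂ) ^ (1 : ℤ) + -(t : ℂ) * (t : ℂ) ^ (0 : ℤ)) = 0 := by
      rw [zpow_one, zpow_zero]; ring
    have e4 : vv B (t : ℂ) (PH^[k + 1] y) = 0 := by
      rw [e2, vv_add, vv_smul B _ htC, vv_smul B _ htC, ← add_smul, e3, zero_smul]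
    exact e4
  · intro t ht y
    have htC : (t : ℂ) ≠ 0 := by exact_mod_cast ht.ne'
    obtain ⟨ha, hb, hc⟩ := hcore t ht
    obtain ⟨k, hk⟩ := hM8 (C y)
    refine ⟨k, vv B (t : ℂ) ⟨_, hk k le_rfl⟩, ?_⟩
    refine Eq.trans ?_ (hb ⟨_, hk k le_rfl⟩).symm
    show (D.Phi t ^ k) y = evl (t : ℂ) ((D.PhiL ^ k) (C y))
    have : ∀ (k : ℕ) (u : LL L), evl (t : ℂ) ((D.PhiL ^ k) u) = (D.Phi t ^ k) (evl (t : ℂ) u) := by
      intro k
      induction k with
      | zero => intro u; simp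
      | succ k ih =>
        intro u
        rw [pow_succ, pow_succ, Module.End.mul_apply, Module.End.mul_apply, ih, hevP _ _ htC]
    rw [this, hevC]

end Pool.Agent.Helper2.SI
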