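import Pool.Agent.Helper28.SI.M_M10

set_option autoImplicit false

/-!
# Project SI, module M9: finitely many exponents
-/

namespace Pool.Agent.Helper2.SI

open Pool.Agent.Helper99.SI LaurentPolynomial Pool.Agent.Helper28.SI

section

variable {n : ℕ} {L : Type} [Ring L] [Algebra ℂ L] [StarRing L] {D : Sys n L} {X0 : Set L}
  {M r : ℕ}

open Classical in
/-- the exponents of the coordinates of y -/
noncomputable def exps (B : YBas D X0 M r) (y : LL L) : Finset ℤ :=
  if h : y ∈ D.YY X0 then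
    (B.B.repr ⟨y, h⟩).support.biUnion fun i => (B.B.repr ⟨y, h⟩ i).coeff.support
  else ∅

lemma co_exps (B : YBas D X0 M r) (y : LL L) (j : ℤ) (hj : j ∉ exps B y) : B.co j y = 0 := by
  classical
  unfold YBas.co
  split_ifs with h
  · have h1 : (B.B.repr ⟨y, h⟩).mapRange (fun a : AA => a.coeff j) (h00 j) = 0 := by
      ext i
      rw [Finsupp.mapRange_apply, Finsupp.zero_apply]
      by_contra hne
      apply hj
      unfold exps
      rw [dif_pos h, Finset.mem_biUnion]
      refine ⟨i, ?_, ?_⟩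
      · rw [Finsupp.mem_support_iff]
        intro h0
        apply hne
        rw [h0]
        exact h00 j
      · rw [Finsupp.mem_support_iff]
        exact hne
    rw [h1, Finsupp.mapDomain_zero]
  · rfl

/-- the short nondummy indices are finitely many -/
lemma fin_short' (n M r N : ℕ) : {i : Id' n M r | ilen (emI i : Idx n r) < N}.Finite :=
  (fin_short n r N).preimage emI_inj.injOn

end

theorem hM9 (h1 : StA3) (h2 : StA5) (h3 : StM0) (h4 : StM7) : StM9 := by
  classical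
  intro n L _ _ _ _ _ D X0 M M2 r B hyp
  obtain ⟨hX, hX1, hX2, hM1, hMM, hpos, hlev⟩ := hyp
  obtain ⟨-, -, -, -, -, -, -, -, -, -, hPb, hPC⟩ := h4 n L D X0 hX1
  obtain ⟨-, -, hba, hbs, -⟩ := h3 L D.b
  obtain ⟨-, -, hcf, -⟩ := h1 n L D
  obtain ⟨-, hgm, -, -, -, hsup⟩ := h2 n L D
  have hu : ∀ (j : ℤ) (ν : W n), M2 ≤ ν.length → uu D j ν ∈ D.Sge M := by
    intro j ν hν
    exact Submodule.sum_mem _ fun i _ => hgm M _ (hlev ν hν j i) _ (xS D i)
  have hac : ∀ (j : ℤ) (ν : W n), D.acol j ν = D.cf (uu D j ν) := fun _ _ => rfl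
  have hemb : ∀ (j : ℤ) (ν : W n), M2 ≤ ν.length → D.emb (D.acol j ν) = uu D j ν := by
    intro j ν hν
    rw [hac, hcf _ (S_of_Sge D M (hu j ν hν))]
  have hlong : ∀ (j : ℤ) (ν : W n), M2 ≤ ν.length → ∀ μ, D.acol j ν μ ≠ 0 → M ≤ μ.length := by
    intro j ν hν
    exact (hsup _ (S_of_Sge D M (hu j ν hν)) M).mp (hu j ν hν)
  have hzero : ∀ (ν : W n), ∀ j ∉ JJ D, D.acol j ν = 0 := by
    intro ν j hj
    rw [hac]
    have : uu D j ν = 0 := by
      unfold uu
      refine Finset.sum_eq_zero fun i _ => ?_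
      rw [JJ_spec D j hj i, star_zero, zero_mul, zero_mul]
    rw [this, map_zero]
  have main1 : ∀ k ∉ JJ D, ∀ ν : W n, M2 ≤ ν.length →
      B.co k (D.PhiL (D.b.bt (D.w ν))) = 0 := by
    intro k hk ν hν
    rw [hPb ν, sum_swap D D.b.bt hba ν]
    have e3 : ∑ j ∈ JJ D, (T j : AA) • D.b.bt (uu D j ν) =
        Finsupp.linearCombination AA (D.fam M B.b) (∑ j ∈ JJ D, QP M r j (D.acol j ν)) := by
      rw [map_sum]
      refine Finset.sum_congr rfl fun j _ => ?_
      rw [lcP D M B.b hba hbs j _ (hlong j ν hν), hemb j ν hν]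
    rw [e3, co_lc B k _ (h00 k), mapRange_QP (JJ D) (fun j => D.acol j ν) (hzero ν) k,
      hzero ν k hk, Finsupp.subtypeDomain_zero, Finsupp.mapDomain_zero, Finsupp.mapDomain_zero]
  have main2 : ∀ k ∉ JJ D, ∀ ν : W n, M2 ≤ ν.length →
      B.co k (D.PhiL (C (star (D.w ν)))) = 0 := by
    intro k hk ν hν
    rw [hPC ν, sum_swap D (fun y => (C (star y) : LL L)) (fun y z => by rw [star_add, map_add]) ν]
    have e3 : ∑ j ∈ JJ D, (T j : AA) • (C (star (uu D j ν)) : LL L) =
        Finsupp.linearCombination AA (D.fam M B.b) (∑ j ∈ JJ D, QN M r j (D.acol j ν)) := by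
      rw [map_sum]
      refine Finset.sum_congr rfl fun j _ => ?_
      rw [lcN D M B.b j _ (hlong j ν hν), hemb j ν hν]
    rw [e3, co_lc B k _ (h00 k), mapRange_QN (JJ D) (fun j => D.acol j ν) (hzero ν) k,
      hzero ν k hk, Finsupp.mapRange_zero, Finsupp.subtypeDomain_zero, Finsupp.mapDomain_zero,
      Finsupp.mapDomain_zero]
  let Z1 : Finset ℤ := (fin_short' n M r (M2 + 1)).toFinset.biUnion fun i =>
    exps B (D.PhiL (D.fam M B.b i))
  let Z2 : Finset ℤ := Finset.univ.biUnion fun a : Fin r => exps B (D.CL (B.b a))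
  let Z3 : Finset ℤ := Finset.univ.biUnion fun a : Fin r => (B.b a).coeff.support
  let Z4 : Finset ℤ := hX.toFinset.biUnion fun x => exps B (C x)
  let Z : Finset ℤ := JJ D ∪ Z1 ∪ Z2 ∪ Z3 ∪ Z4
  have hJ : ∀ j ∉ Z, j ∉ JJ D ∧ j ∉ Z1 ∧ j ∉ Z2 ∧ j ∉ Z3 ∧ j ∉ Z4 := by
    intro j hj
    simp only [Z, Finset.mem_union, not_or] at hj
    obtain ⟨⟨⟨⟨a1, a2⟩, a3⟩, a4⟩, a5⟩ := hj
    exact ⟨a1, a2, a3, a4, a5⟩
  refine ⟨Z, ?_, ?_, ?_, ?_, ?_⟩
  · intro j hj i
    exact JJ_spec D j (hJ j hj).1 i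
  · intro j hj i
    obtain ⟨hjJ, hj1, -, -, -⟩ := hJ j hj
    show FF B M2 Z j i = 0
    by_cases hi : ∃ i' : Id' n M r, emI i' = i
    · obtain ⟨i', rfl⟩ := hi
      rw [F_emI]
      by_cases hs : ilen (emI i' : Idx n r) < M2 + 1
      · apply co_exps
        intro hmem
        apply hj1
        simp only [Z1, Finset.mem_biUnion]
        exact ⟨i', by rw [Set.Finite.mem_toFinset]; exact hs, hmem⟩
      · rcases i' with (ν | ν) | a
        · have hν : M2 + 1 ≤ ν.1.length := not_lt.mp hs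
          exact main1 j hjJ ν.1 (by omega)
        · have hν : M2 + 1 ≤ ν.1.length := not_lt.mp hs
          exact main2 j hjJ ν.1 (by omega)
        · exfalso
          apply hs
          show 0 < M2 + 1
          omega
    · exact F_no B M2 Z j i hi
  · intro j hj a
    obtain ⟨-, -, hj2, -, -⟩ := hJ j hj
    show B.co j (D.CL (B.b a)) = 0
    apply co_exps
    intro hmem
    apply hj2
    simp only [Z2, Finset.mem_biUnion]
    exact ⟨a, Finset.mem_univ a, hmem⟩
  · intro j hj a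
    obtain ⟨-, -, -, hj3, -⟩ := hJ j hj
    show (B.b a).coeff j = 0
    by_contra hne
    apply hj3
    simp only [Z3, Finset.mem_biUnion]
    exact ⟨a, Finset.mem_univ a, by rw [Finsupp.mem_support_iff]; exact hne⟩
  · intro j hj x hx
    obtain ⟨-, -, -, -, hj4⟩ := hJ j hj
    apply co_exps
    intro hmem
    apply hj4
    simp only [Z4, Finset.mem_biUnion]
    exact ⟨x, by rw [Set.Finite.mem_toFinset]; exact hx, hmem⟩

end Pool.Agent.Helper2.SI
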